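import Pool.Agent.helper358_lh.Defs

open Matrix Polynomial

namespace helper358_lh

lemma isHermitian_FtF (F : M3) : (Fᵀ * F).IsHermitian := by
  rw [IsHermitian, conjTranspose_eq_transpose_of_trivial, transpose_mul, transpose_transpose]

lemma contOn (f : ℝ → ℝ) (A : M3) : ContinuousOn f (spectrum ℝ A) :=
  (Matrix.finite_real_spectrum (A := A)).continuousOn f

/-- trace of the functional calculus -/
lemma trace_cfc {A : M3} (hA : A.IsHermitian) (f : ℝ → ℝ) :
    (cfc f A).trace = ∑ i, f (hA.eigenvalues i) := by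
  rw [hA.cfc_eq, IsHermitian.cfc, Unitary.conjStarAlgAut_apply, trace_mul_comm, ← mul_assoc]
  simp [trace]

noncomputable def g (x : ℝ) : ℝ := Real.log (Real.sqrt x)

lemma logStretch_eq (F : M3) : logStretch F = cfc g (Fᵀ * F) := by
  unfold logStretch stretch
  rw [← cfc_comp Real.log Real.sqrt (Fᵀ * F) (isHermitian_FtF F).isSelfAdjoint
    ?_ (contOn _ _)]
  · rfl
  · have : (Real.sqrt '' spectrum ℝ (Fᵀ * F)).Finite :=
      (Matrix.finite_real_spectrum (A := Fᵀ * F)).image _
    exact this.continuousOn _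

lemma Kdist_eq (F : M3) :
    Kdist F = ∑ i, g ((isHermitian_FtF F).eigenvalues i) ^ 2 -
      (∑ i, g ((isHermitian_FtF F).eigenvalues i)) ^ 2 / 3 := by
  have hH := isHermitian_FtF F
  set X := logStretch F with hX
  have hXc : X = cfc g (Fᵀ * F) := logStretch_eq F
  have hXs : Xᵀ = X := by
    have : IsSelfAdjoint X := by rw [hXc]; exact IsSelfAdjoint.cfc
    have h2 : star X = X := this
    rwa [star_eq_conjTranspose, conjTranspose_eq_transpose_of_trivial] at h2
  have h1 : X.trace = ∑ i, g (hH.eigenvalues i) := by rw [hXc, trace_cfc hH]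
  have h2 : (X * X).trace = ∑ i, g (hH.eigenvalues i) ^ 2 := by
    have : X * X = cfc (fun x => g x ^ 2) (Fᵀ * F) := by
      rw [hXc, ← cfc_mul g g (Fᵀ * F) (contOn _ _) (contOn _ _)]
      congr 1
      funext x
      ring
    rw [this, trace_cfc hH]
  have h3 : Kdist F = (X * X).trace - X.trace ^ 2 / 3 := by
    unfold Kdist dev3
    rw [← hX, transpose_sub, hXs, transpose_smul, transpose_one]
    simp only [Matrix.sub_mul, Matrix.mul_sub, Matrix.smul_mul, Matrix.mul_smul, Matrix.one_mul,
      Matrix.mul_one, trace_sub, trace_smul, trace_one, smul_eq_mul, Fintype.card_fin]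
    ring
  rw [h3, h1, h2]

/-- sum over the eigenvalues from the factorised characteristic polynomial -/
lemma sum_eig {A : M3} (hA : A.IsHermitian) {p q r : ℝ}
    (hc : A.charpoly = (X - C p) * (X - C q) * (X - C r)) (f : ℝ → ℝ) :
    ∑ i, f (hA.eigenvalues i) = f p + f q + f r := by
  have h1 : A.charpoly.roots = {p, q, r} := by
    rw [hc, roots_mul, roots_mul, roots_X_sub_C, roots_X_sub_C, roots_X_sub_C]
    · rfl
    · exact mul_ne_zero (X_sub_C_ne_zero _) (X_sub_C_ne_zero _)
    · exact mul_ne_zero (mul_ne_zero (X_sub_C_ne_zero _) (X_sub_C_ne_zero _)) (X_sub_C_ne_zero _)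
  rw [hA.roots_charpoly_eq_eigenvalues] at h1
  have h2 := congrArg (fun s => (s.map f).sum) h1
  simp only [Multiset.map_map, Multiset.insert_eq_cons, Multiset.map_cons, Multiset.map_singleton,
    Multiset.sum_cons, Multiset.sum_singleton] at h2
  rw [add_assoc]
  rw [← h2]
  rfl

/-- The block matrices. -/
def blk (a b c d l : ℝ) : M3 := !![a, b, 0; c, d, 0; 0, 0, l]

lemma charpoly_blk (a b c d l p q : ℝ) (h1 : p + q = a ^ 2 + b ^ 2 + c ^ 2 + d ^ 2)
    (h2 : p * q = (a * d - b * c) ^ 2) :
    ((blk a b c d l)ᵀ * blk a b c d l).charpoly = (X - C p) * (X - C q) * (X - C (l ^ 2)) := by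
  have e : (blk a b c d l)ᵀ * blk a b c d l =
      !![a ^ 2 + c ^ 2, a * b + c * d, 0; a * b + c * d, b ^ 2 + d ^ 2, 0; 0, 0, l ^ 2] := by
    ext i j
    fin_cases i <;> fin_cases j <;>
      simp [blk, Matrix.mul_apply, Fin.sum_univ_three, Matrix.transpose_apply] <;> ring
  rw [e, Matrix.charpoly, Matrix.det_fin_three]
  simp [Matrix.charmatrix_apply, Matrix.diagonal]
  have h3 : (X - C p) * (X - C q) = X ^ 2 - C (p + q) * X + C (p * q) := by
    simp only [C_add, C_mul]; ring
  rw [h3, h1, h2]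
  simp only [C_add, C_mul, C_sub, C_pow]
  ring

/-- The value of `K` at a block matrix. -/
lemma Kdist_blk {a b c d l : ℝ} (hD : 0 < a * d - b * c) (hl : 0 < l) :
    Kdist (blk a b c d l) =
      Real.arcosh ((a ^ 2 + b ^ 2 + c ^ 2 + d ^ 2) / (2 * (a * d - b * c))) ^ 2 / 2 +
        (Real.log (a * d - b * c) - 2 * Real.log l) ^ 2 / 6 := by
  set D := a * d - b * c with hDdef
  set N := a ^ 2 + b ^ 2 + c ^ 2 + d ^ 2 with hN
  have hge : 1 ≤ N / (2 * D) := by
    rw [le_div_iff₀ (by positivity)]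
    nlinarith [sq_nonneg (a - d), sq_nonneg (b + c)]
  set u := Real.arcosh (N / (2 * D)) with hu
  have hcosh : Real.cosh u = N / (2 * D) := Real.cosh_arcosh hge
  have hpq : D * Real.exp u + D * Real.exp (-u) = N := by
    rw [← mul_add]
    have : Real.exp u + Real.exp (-u) = 2 * Real.cosh u := by rw [Real.cosh_eq]; ring
    rw [this, hcosh]
    field_simp
  have hpq2 : D * Real.exp u * (D * Real.exp (-u)) = D ^ 2 := by
    rw [Real.exp_neg]
    have := Real.exp_ne_zero u
    field_simp
  have hchar := charpoly_blk a b c d l (D * Real.exp u) (D * Real.exp (-u)) hpq hpq2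
  rw [Kdist_eq, sum_eig _ hchar (fun x => g x ^ 2), sum_eig _ hchar g]
  have g1 : g (D * Real.exp u) = (Real.log D + u) / 2 := by
    unfold g
    rw [Real.log_sqrt (by positivity), Real.log_mul hD.ne' (Real.exp_ne_zero _), Real.log_exp]
  have g2 : g (D * Real.exp (-u)) = (Real.log D - u) / 2 := by
    unfold g
    rw [Real.log_sqrt (by positivity), Real.log_mul hD.ne' (Real.exp_ne_zero _), Real.log_exp]
    ring
  have g3 : g (l ^ 2) = Real.log l := by
    unfold g
    rw [Real.sqrt_sq hl.le]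
  rw [g1, g2, g3]
  ring

end helper358_lh
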