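import Pool.Agent.helper358_lh.Alg

open Matrix Filter Topology

namespace helper358_lh

lemma comp_second {W k D1 : ℝ → ℝ} {D2 : ℝ} (hW : ContDiffAt ℝ 2 W (k 0))
    (hk : ∀ᶠ s in 𝓝 (0 : ℝ), HasDerivAt k (D1 s) s) (hD : HasDerivAt D1 D2 0) (h0 : D1 0 = 0) :
    deriv (deriv fun s => W (k s)) 0 = deriv W (k 0) * D2 := by
  have hk0 : HasDerivAt k (D1 0) 0 := hk.self_of_nhds
  have hW1 : ∀ᶠ y in 𝓝 (k 0), DifferentiableAt ℝ W y := by
    filter_upwards [hW.eventually (by simp)] with y hy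
    exact hy.differentiableAt (by norm_num)
  have hW2 : ∀ᶠ s in 𝓝 (0 : ℝ), DifferentiableAt ℝ W (k s) :=
    hk0.continuousAt.eventually hW1
  have h1 : ∀ᶠ s in 𝓝 (0 : ℝ), HasDerivAt (fun s => W (k s)) (deriv W (k s) * D1 s) s := by
    filter_upwards [hk, hW2] with s hs hws
    exact hws.hasDerivAt.comp s hs
  have h2 : (deriv fun s => W (k s)) =ᶠ[𝓝 0] fun s => deriv W (k s) * D1 s := by
    filter_upwards [h1] with s hs
    exact hs.deriv
  rw [h2.deriv_eq]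
  have h3 : DifferentiableAt ℝ (deriv W) (k 0) := by
    have h4 : ContDiffAt ℝ 1 (deriv W) (k 0) := hW.derivWithin (by norm_num)
    exact h4.differentiableAt (by norm_num)
  have h5 : HasDerivAt (fun s => deriv W (k s)) (deriv (deriv W) (k 0) * D1 0) 0 :=
    h3.hasDerivAt.comp 0 hk0
  have h6 := h5.mul hD
  rw [h0] at h6
  have h7 := h6.deriv
  simp only [mul_zero, zero_add] at h7
  exact h7

/-- The third stretch `2^{-20}`. -/
noncomputable def ll : ℝ := (1 / 2) ^ 20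

lemma ll_pos : 0 < ll := by unfold ll; positivity

lemma log_ll : Real.log ll = -20 * Real.log 2 := by
  unfold ll
  rw [Real.log_pow, one_div, Real.log_inv]
  push_cast; ring

lemma log32 : Real.log 32 = 5 * Real.log 2 := by
  have : (32 : ℝ) = 2 ^ 5 := by norm_num
  rw [this, Real.log_pow]; push_cast; ring

/-- The base point `F₀ = diag (32, 1, 2^{-20})`. -/
noncomputable def F0 : M3 := Matrix.diagonal ![32, 1, ll]

lemma F0_eq : F0 = blk 32 0 0 1 ll := by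
  unfold F0 blk
  ext i j
  fin_cases i <;> fin_cases j <;> simp [Matrix.diagonal]

lemma sqrt_c0 : Real.sqrt ((1025 / 64 : ℝ) ^ 2 - 1) = 1023 / 64 := by
  have : (1025 / 64 : ℝ) ^ 2 - 1 = (1023 / 64) ^ 2 := by norm_num
  rw [this, Real.sqrt_sq (by norm_num)]

lemma arcosh_c0 : Real.arcosh (1025 / 64) = 5 * Real.log 2 := by
  rw [Real.arcosh, sqrt_c0, ← log32]
  norm_num

/-! ### A general computation -/

/-- The function along a path of block matrices. -/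
noncomputable def kk (c v : ℝ → ℝ) (s : ℝ) : ℝ := Real.arcosh (c s) ^ 2 / 2 + v s ^ 2 / 6

/-- Its derivative. -/
noncomputable def kk1 (c c1 v v1 : ℝ → ℝ) (s : ℝ) : ℝ :=
  Real.arcosh (c s) * (c1 s * (Real.sqrt (c s ^ 2 - 1))⁻¹) + v s * v1 s / 3

lemma kk_deriv {c c1 v v1 : ℝ → ℝ} {s : ℝ} (hc : HasDerivAt c (c1 s) s)
    (hv : HasDerivAt v (v1 s) s) (h1 : 1 < c s) : HasDerivAt (kk c v) (kk1 c c1 v v1 s) s := by
  have h2 : HasDerivAt (fun s => Real.arcosh (c s)) ((Real.sqrt (c s ^ 2 - 1))⁻¹ * c1 s) s :=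
    (Real.hasDerivAt_arcosh h1).comp s hc
  have h3 := ((h2.pow 2).div_const 2).add ((hv.pow 2).div_const 6)
  have h4 : HasDerivAt (kk c v) _ s := h3
  refine h4.congr_deriv ?_
  unfold kk1
  norm_num
  ring

lemma kk1_deriv {c c1 v v1 : ℝ → ℝ} {c2 v2 : ℝ} (hc : HasDerivAt c (c1 0) 0)
    (hc1 : HasDerivAt c1 c2 0) (hv : HasDerivAt v (v1 0) 0) (hv1 : HasDerivAt v1 v2 0)
    (h1 : c 0 = 1025 / 64) :
    HasDerivAt (kk1 c c1 v v1)
      ((c1 0 * (64 / 1023)) ^ 2 + 5 * Real.log 2 * (c2 * (64 / 1023)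
        - c1 0 * (1025 / 64 * c1 0 / (1023 / 64)) * (64 / 1023) ^ 2)
        + (v1 0 ^ 2 + v 0 * v2) / 3) 0 := by
  have hc0 : 1 < c 0 := by rw [h1]; norm_num
  have h2 : HasDerivAt (fun s => Real.arcosh (c s)) ((Real.sqrt (c 0 ^ 2 - 1))⁻¹ * c1 0) 0 :=
    (Real.hasDerivAt_arcosh hc0).comp 0 hc
  have h3 : HasDerivAt (fun s => c s ^ 2 - 1) (2 * c 0 * c1 0) 0 := by
    have := (hc.pow 2).sub_const 1
    simpa using this
  have h4 := h3.sqrt (by rw [h1]; norm_num)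
  have h5 := h4.inv (by rw [h1, sqrt_c0]; norm_num)
  have h6 := h2.mul (hc1.mul h5)
  have h7 := h6.add ((hv.mul hv1).div_const 3)
  have h8 : HasDerivAt (kk1 c c1 v v1) _ 0 := h7
  refine h8.congr_deriv ?_
  simp only [Pi.mul_apply, Pi.inv_apply]
  rw [h1, sqrt_c0, arcosh_c0]
  ring

end helper358_lh
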