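import Mathlib

/-!
Definitions for the distortional logarithmic strain energies of MP_e7e597_an.
-/

open Matrix

namespace helper358_lh

/-- Real `3 × 3` matrices. -/
abbrev M3 := Matrix (Fin 3) (Fin 3) ℝ

/-- The right stretch `U = √(Fᵀ F)`: the continuous functional calculus of the symmetric matrix
`Fᵀ F` applied to `√`. -/
noncomputable def stretch (F : M3) : M3 := cfc Real.sqrt (Fᵀ * F)

/-- The matrix logarithm `log U` of the right stretch `U = √(Fᵀ F)`. -/
noncomputable def logStretch (F : M3) : M3 := cfc Real.log (stretch F)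

/-- The deviatoric part `dev₃ X = X - (tr X / 3) 1`. -/
noncomputable def dev3 (X : M3) : M3 := X - (X.trace / 3) • (1 : M3)

/-- `K(F) = ‖dev₃ log U‖²`, with the Frobenius norm `‖X‖² = tr (X Xᵀ)`. -/
noncomputable def Kdist (F : M3) : ℝ :=
  (dev3 (logStretch F) * (dev3 (logStretch F))ᵀ).trace

/-- The second derivative at `t = 0` of `t ↦ Φ (F + t ξ ⊗ η)`. -/
noncomputable def secondDeriv (Φ : M3 → ℝ) (F : M3) (ξ η : Fin 3 → ℝ) : ℝ :=
  deriv (deriv fun t : ℝ => Φ (F + t • vecMulVec ξ η)) 0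

/-- Legendre-Hadamard ellipticity on `GL⁺(3)`. -/
def LHElliptic (Φ : M3 → ℝ) : Prop :=
  ∀ F : M3, 0 < F.det → ∀ ξ η : Fin 3 → ℝ, ξ ≠ 0 → η ≠ 0 → 0 < secondDeriv Φ F ξ η

end helper358_lh
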