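import Pool.Agent.helper358_lh.Calc

open Matrix Filter Topology

namespace helper358_lh

lemma pathA (s : ℝ) : F0 + s • vecMulVec ![4, 1, 0] ![4, -1, 0] =
    blk (32 + 16 * s) (-4 * s) (4 * s) (1 - s) ll := by
  rw [F0_eq]
  unfold blk
  ext i j
  fin_cases i <;> fin_cases j <;> simp [vecMulVec_apply] <;> ring

lemma pathB (s : ℝ) : F0 + s • vecMulVec ![1, 0, 0] ![0, 1, 0] = blk 32 s 0 1 ll := by
  rw [F0_eq]
  unfold blk
  ext i j
  fin_cases i <;> fin_cases j <;> simp [vecMulVec_apply]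

lemma L_pos : 0 < Real.log 2 := Real.log_pos (by norm_num)

/-! ### Path A -/

noncomputable def cA (s : ℝ) : ℝ := (1025 + 1022 * s + 289 * s ^ 2) / (64 - 32 * s)
noncomputable def cA1 (s : ℝ) : ℝ := (98208 + 36992 * s - 9248 * s ^ 2) / (64 - 32 * s) ^ 2
noncomputable def vA (s : ℝ) : ℝ := Real.log (32 - 16 * s) - 2 * Real.log ll
noncomputable def vA1 (s : ℝ) : ℝ := -16 / (32 - 16 * s)

lemma cA_deriv {s : ℝ} (hs : s < 1) : HasDerivAt cA (cA1 s) s := by
  have h1 : HasDerivAt (fun s : ℝ => 1025 + 1022 * s + 289 * s ^ 2) (1022 + 578 * s) s := by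
    have := ((hasDerivAt_id s).const_mul 1022).const_add 1025 |>.add
      (((hasDerivAt_id s).pow 2).const_mul 289)
    refine (this.congr_deriv ?_)
    simp; ring
  have h2 : HasDerivAt (fun s : ℝ => 64 - 32 * s) (-32) s := by
    have := ((hasDerivAt_id s).const_mul 32).const_sub 64
    refine (this.congr_deriv ?_)
    simp
  have h3 : (64 - 32 * s) ≠ 0 := by linarith
  have h4 := h1.div h2 h3
  have h5 : HasDerivAt cA _ s := h4
  refine h5.congr_deriv ?_
  unfold cA1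
  congr 1
  ring

lemma cA1_deriv : HasDerivAt cA1 (4225 / 128) 0 := by
  have h1 : HasDerivAt (fun s : ℝ => 98208 + 36992 * s - 9248 * s ^ 2) 36992 0 := by
    have := (((hasDerivAt_id (0:ℝ)).const_mul 36992).const_add 98208).sub
      (((hasDerivAt_id (0:ℝ)).pow 2).const_mul 9248)
    refine (this.congr_deriv ?_)
    simp
  have h2 : HasDerivAt (fun s : ℝ => (64 - 32 * s) ^ 2) (-4096) 0 := by
    have := (((hasDerivAt_id (0:ℝ)).const_mul 32).const_sub 64).pow 2
    refine (this.congr_deriv ?_)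
    norm_num
  have h4 := h1.div h2 (by norm_num)
  have h5 : HasDerivAt cA1 _ 0 := h4
  refine h5.congr_deriv ?_
  norm_num

lemma vA_deriv {s : ℝ} (hs : s < 1) : HasDerivAt vA (vA1 s) s := by
  have h2 : HasDerivAt (fun s : ℝ => 32 - 16 * s) (-16) s := by
    have := ((hasDerivAt_id s).const_mul 16).const_sub 32
    refine (this.congr_deriv ?_)
    simp
  have h3 : (32 - 16 * s) ≠ 0 := by linarith
  have h4 := (h2.log h3).sub_const (2 * Real.log ll)
  exact h4

lemma vA1_deriv : HasDerivAt vA1 (-1 / 4) 0 := by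
  have h2 : HasDerivAt (fun s : ℝ => 32 - 16 * s) (-16) 0 := by
    have := ((hasDerivAt_id (0:ℝ)).const_mul 16).const_sub 32
    refine (this.congr_deriv ?_)
    simp
  have h4 := (hasDerivAt_const (0:ℝ) (-16 : ℝ)).div h2 (by norm_num)
  have h5 : HasDerivAt vA1 _ 0 := h4
  refine h5.congr_deriv ?_
  norm_num

lemma cA_gt {s : ℝ} (hs : |s| < 1 / 2) : 1 < cA s := by
  obtain ⟨h1, h2⟩ := abs_lt.1 hs
  unfold cA
  rw [one_lt_div (by linarith)]
  nlinarith [sq_nonneg (31 + 17 * s)]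

lemma KA {s : ℝ} (hs : |s| < 1 / 2) :
    Kdist (F0 + s • vecMulVec ![4, 1, 0] ![4, -1, 0]) = kk cA vA s := by
  obtain ⟨h1, h2⟩ := abs_lt.1 hs
  rw [pathA, Kdist_blk (by nlinarith) ll_pos]
  unfold kk cA vA
  have e1 : (32 + 16 * s) * (1 - s) - -4 * s * (4 * s) = 32 - 16 * s := by ring
  have e2 : (32 + 16 * s) ^ 2 + (-4 * s) ^ 2 + (4 * s) ^ 2 + (1 - s) ^ 2 =
      1025 + 1022 * s + 289 * s ^ 2 := by ring
  rw [e1, e2]
  have e3 : 2 * (32 - 16 * s) = 64 - 32 * s := by ring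
  rw [e3]

lemma small_nhds : ∀ᶠ s in 𝓝 (0 : ℝ), |s| < 1 / 2 := by
  have : Metric.ball (0 : ℝ) (1 / 2) ∈ 𝓝 (0 : ℝ) := Metric.ball_mem_nhds _ (by norm_num)
  filter_upwards [this] with s hs
  simpa [Real.dist_eq] using hs

/-! ### Path B -/

noncomputable def cB (s : ℝ) : ℝ := (1025 + s ^ 2) / 64
noncomputable def cB1 (s : ℝ) : ℝ := s / 32
noncomputable def vB (_ : ℝ) : ℝ := Real.log 32 - 2 * Real.log ll
noncomputable def vB1 (_ : ℝ) : ℝ := 0

lemma cB_deriv (s : ℝ) : HasDerivAt cB (cB1 s) s := by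
  have := (((hasDerivAt_id s).pow 2).const_add 1025).div_const 64
  have h5 : HasDerivAt cB _ s := this
  refine h5.congr_deriv ?_
  unfold cB1
  simp; ring

lemma cB1_deriv : HasDerivAt cB1 (1 / 32) 0 := (hasDerivAt_id (0:ℝ)).div_const 32

lemma KB (s : ℝ) : Kdist (F0 + s • vecMulVec ![1, 0, 0] ![0, 1, 0]) = kk cB vB s := by
  rw [pathB, Kdist_blk (by norm_num) ll_pos]
  unfold kk cB vB
  have e1 : (32 : ℝ) * 1 - s * 0 = 32 := by ring
  have e2 : (32 : ℝ) ^ 2 + s ^ 2 + 0 ^ 2 + 1 ^ 2 = 1025 + s ^ 2 := by ring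
  rw [e1, e2]
  norm_num

lemma cB_gt (s : ℝ) : 1 < cB s := by
  unfold cB
  rw [one_lt_div (by norm_num)]
  nlinarith [sq_nonneg s]

/-- The value at the base point. -/
lemma kA0 : kk cA vA 0 = 350 * Real.log 2 ^ 2 := by
  have h1 : cA 0 = 1025 / 64 := by unfold cA; norm_num
  have h2 : vA 0 = 45 * Real.log 2 := by
    unfold vA; rw [log_ll]; norm_num; rw [log32]; ring
  unfold kk
  rw [h1, h2, arcosh_c0]; ring

lemma kB0 : kk cB vB 0 = 350 * Real.log 2 ^ 2 := by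
  have h1 : cB 0 = 1025 / 64 := by unfold cB; norm_num
  have h2 : vB 0 = 45 * Real.log 2 := by
    unfold vB; rw [log_ll, log32]; ring
  unfold kk
  rw [h1, h2, arcosh_c0]; ring

lemma kappa_pos : 0 < 350 * Real.log 2 ^ 2 := by
  have := L_pos
  positivity

/-- The second derivative along path A. -/
lemma secondA {W : ℝ → ℝ} (hW : ContDiffOn ℝ 2 W (Set.Ici 0)) :
    secondDeriv (fun F => W (Kdist F)) F0 ![4, 1, 0] ![4, -1, 0] =
      deriv W (350 * Real.log 2 ^ 2) * (7 / 3 - (3875 / 4092 + 15 / 4) * Real.log 2) := by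
  have hWat : ContDiffAt ℝ 2 W (kk cA vA 0) := by
    rw [kA0]
    exact hW.contDiffAt (Ici_mem_nhds kappa_pos)
  have h1 : cA 0 = 1025 / 64 := by unfold cA; norm_num
  have h2 : vA 0 = 45 * Real.log 2 := by
    unfold vA; rw [log_ll]; norm_num; rw [log32]; ring
  have h3 : cA1 0 = 3069 / 128 := by unfold cA1; norm_num
  have h4 : vA1 0 = -1 / 2 := by unfold vA1; norm_num
  have hk : ∀ᶠ s in 𝓝 (0 : ℝ), HasDerivAt (kk cA vA) (kk1 cA cA1 vA vA1 s) s := by
    filter_upwards [small_nhds] with s hs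
    obtain ⟨h1, h2⟩ := abs_lt.1 hs
    exact kk_deriv (cA_deriv (by linarith)) (vA_deriv (by linarith)) (cA_gt hs)
  have hD := kk1_deriv (cA_deriv (by norm_num)) cA1_deriv (vA_deriv (by norm_num)) vA1_deriv h1
  have h0 : kk1 cA cA1 vA vA1 0 = 0 := by
    unfold kk1
    rw [h1, h2, h3, h4, arcosh_c0, sqrt_c0]
    ring
  have hmain := comp_second hWat hk hD h0
  unfold secondDeriv
  have heq : (fun t : ℝ => W (Kdist (F0 + t • vecMulVec ![4, 1, 0] ![4, -1, 0]))) =ᶠ[𝓝 0]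
      fun s => W (kk cA vA s) := by
    filter_upwards [small_nhds] with s hs
    rw [KA hs]
  rw [(heq.deriv).deriv_eq, hmain, kA0, h2, h3, h4]
  ring

/-- The second derivative along path B. -/
lemma secondB {W : ℝ → ℝ} (hW : ContDiffOn ℝ 2 W (Set.Ici 0)) :
    secondDeriv (fun F => W (Kdist F)) F0 ![1, 0, 0] ![0, 1, 0] =
      deriv W (350 * Real.log 2 ^ 2) * (10 / 1023 * Real.log 2) := by
  have hWat : ContDiffAt ℝ 2 W (kk cB vB 0) := by
    rw [kB0]
    exact hW.contDiffAt (Ici_mem_nhds kappa_pos)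
  have h1 : cB 0 = 1025 / 64 := by unfold cB; norm_num
  have h3 : cB1 0 = 0 := by unfold cB1; norm_num
  have hv : ∀ s, HasDerivAt vB (vB1 s) s := fun s => hasDerivAt_const s _
  have hv1 : HasDerivAt vB1 0 0 := hasDerivAt_const (0 : ℝ) (0 : ℝ)
  have hk : ∀ᶠ s in 𝓝 (0 : ℝ), HasDerivAt (kk cB vB) (kk1 cB cB1 vB vB1 s) s :=
    Eventually.of_forall fun s => kk_deriv (cB_deriv s) (hv s) (cB_gt s)
  have hD := kk1_deriv (cB_deriv 0) cB1_deriv (hv 0) hv1 h1
  have h0 : kk1 cB cB1 vB vB1 0 = 0 := by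
    unfold kk1
    rw [h3]
    simp [vB1]
  have hmain := comp_second hWat hk hD h0
  unfold secondDeriv
  have heq : (fun t : ℝ => W (Kdist (F0 + t • vecMulVec ![1, 0, 0] ![0, 1, 0]))) =
      fun s => W (kk cB vB s) := by
    funext s
    rw [KB s]
  rw [heq, hmain, kB0, h3]
  simp only [vB1]
  ring

lemma factorA_neg : 7 / 3 - (3875 / 4092 + 15 / 4) * Real.log 2 < 0 := by
  have := Real.log_two_gt_d9
  nlinarith

lemma F0_det : 0 < F0.det := by
  rw [F0_eq]
  unfold blk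
  rw [Matrix.det_fin_three]
  have := ll_pos
  simp
  linarith

end helper358_lh
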